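import Pool.Agent.Y956.CP.Mob

/-!
# Chowla's conjecture for the Moebius function along dilated tuples and one displaced shift
-/

set_option autoImplicit false

namespace Pool.Agent.Results.MP_c59857_nt.DilatedTuples

open Finset

/-- the Moebius function, extended by zero to the integers `m ≤ 0` -/
noncomputable def mob (m : ℤ) : ℝ := if 0 < m then (ArithmeticFunction.moebius m.toNat : ℝ) else 0

/-- the logarithmic average over the scales `Y < x ≤ W` -/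
noncomputable def scales (φ : ℕ → ℝ) (Y W : ℕ) : ℝ :=
  (1 / Real.log ((W : ℝ) / Y)) * ∑ x ∈ Ioc Y W, (1 / (x : ℝ)) * φ x

/-- the correlation over `n ≤ x` of the powers `e i` of the Moebius function at `n + h * b i` and of the
Moebius function at the displaced point `n + d` -/
noncomputable def corr {k : ℕ} (e : Fin k → ℕ) (b : Fin k → ℤ) (h : ℕ) (d : ℤ) (x : ℕ) : ℝ :=
  (1 / (x : ℝ)) * ∑ n ∈ Icc 1 x, mob (n + d) * ∏ i, mob (n + h * b i) ^ (e i)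

open Classical in
/-- the exceptional pairs `(h, d)` for the scales between `Y` and `W` -/
noncomputable def exc {k : ℕ} (e : Fin k → ℕ) (b : Fin k → ℤ) (ε : ℝ) (S : Finset (ℕ × ℤ)) (Y W : ℕ) :
    Finset (ℕ × ℤ) := S.filter (fun s => ε < scales (fun x => |corr e b s.1 s.2 x|) Y W)

theorem result (k : ℕ) (ε : ℝ) (hε : 0 < ε) : ∃ C : ℝ, ∃ H₀ : ℕ, ∀ (e : Fin k → ℕ) (b : Fin k → ℤ)
    (S : Finset (ℕ × ℤ)), (∀ s ∈ S, 1 ≤ s.1) →
    (∀ s ∈ S, ∀ s' ∈ S, s ≠ s' → s.2 * (s'.1 : ℤ) ≠ s'.2 * (s.1 : ℤ)) →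
    ∃ ω₀ : ℕ, ∀ Y W : ℕ, 1 ≤ Y → ω₀ * Y ≤ W →
      ∑ s ∈ exc e b ε S Y W, 1 / (s.1 : ℝ) ≤ C ∧
      ∀ H : ℕ, H₀ ≤ H → (((exc e b ε S Y W).filter (fun s => s.1 ≤ H)).card : ℝ) ≤ ε * H := by
  classical
  obtain ⟨C, _, H₀, _, h⟩ := Pool.Agent.Y956.CP.fin_rare Pool.Agent.Y956.CP.scaled k 1 1 ε hε
  refine ⟨C, H₀, fun e b S hS1 hS2 => ?_⟩
  obtain ⟨ω₀, h1⟩ := h 1 le_rfl le_rfl (fun _ => 1) (Pool.Agent.Y956.CP.lpq_one _ (by positivity))
    (fun i n => ((ArithmeticFunction.moebius n : ℤ) : ℂ) ^ (e i))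
    (fun i => Pool.Agent.Y956.CB.mult1_mob_pow (e i))
    (fun n => ArithmeticFunction.moebius n) Pool.Agent.Y956.CB.mu_mob Pool.Agent.Y956.CB.expo_mob
    (fun m => ((Pool.Agent.Y956.CP.mobZ m : ℝ) : ℂ)) (fun i m => ((Pool.Agent.Y956.CP.mobZ m ^ (e i) : ℝ) : ℂ))
    Pool.Agent.Y956.CP.mobZ_ext (fun i => Pool.Agent.Y956.CP.mobZ_pow_ext (e i)) 0 S ⟨hS1, hS2⟩ b
  refine ⟨ω₀, fun Y W hY hW => ?_⟩
  have h2 := h1 Y W hY hW
  have e0 : S.filter (fun s => ε < Pool.Agent.Y956.CB.WA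
      (fun x => ‖Pool.Agent.Y956.CP.wav (fun _ => 1) (Pool.Agent.Y956.CP.Ps
        (fun m => ((Pool.Agent.Y956.CP.mobZ m : ℝ) : ℂ)) (fun i m => ((Pool.Agent.Y956.CP.mobZ m ^ (e i) : ℝ) : ℂ))
        1 0 s.2 (fun j => b j * s.1)) x‖) Y W) = exc e b ε S Y W := by
    unfold exc
    apply filter_congr
    intro s _
    have e1 : (fun x => ‖Pool.Agent.Y956.CP.wav (fun _ => 1) (Pool.Agent.Y956.CP.Ps
        (fun m => ((Pool.Agent.Y956.CP.mobZ m : ℝ) : ℂ)) (fun i m => ((Pool.Agent.Y956.CP.mobZ m ^ (e i) : ℝ) : ℂ))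
        1 0 s.2 (fun j => b j * s.1)) x‖) = fun x => |corr e b s.1 s.2 x| := by
      funext x
      rw [← Real.norm_eq_abs, ← Complex.norm_real]
      congr 1
      unfold Pool.Agent.Y956.CP.wav Pool.Agent.Y956.CP.Ps corr mob Pool.Agent.Y956.CP.mobZ
      push_cast
      congr 1
      apply sum_congr rfl
      intro n _
      rw [one_mul]
      simp only [one_mul, add_zero, mul_comm (b _) (s.1 : ℤ)]
    rw [e1]
    rfl
  rw [e0] at h2
  exact h2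

end Pool.Agent.Results.MP_c59857_nt.DilatedTuples
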