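import Pool.Agent.Y326.Slf9

/-! Correlations of all orders of the Möbius function (and of all bounded multiplicative functions) with phases like
`n ^ c`, `c > 1` not an integer: unweighted averages, also over arbitrarily short intervals, at almost all scales; the
joint patterns of the functions and of the phase are independent. -/

set_option autoImplicit false

open Finset Filter Topology MeasureTheory

namespace Pool.Agent.Results.MP_c59857_nt.FastPhases

/-- `∑_{n ≤ N} g(n)/n = o(log N)` -/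
def LogZero (g : ℕ → ℂ) : Prop :=
  Tendsto (fun N : ℕ => (∑ n ∈ Icc 1 N, g n / (n : ℂ)) / ((Real.log N : ℝ) : ℂ)) atTop (𝓝 0)

/-- `B(x)` is small at almost all scales, uniformly in all long windows: for each `ε > 0` there is a `C` with
`∑_{A < x ≤ N} |B(x)|/x ≤ ε log(N/A)` for all `A ≥ 1` and `N ≥ C A`. -/
def Small (B : ℕ → ℂ) : Prop :=
  ∀ ε : ℝ, 0 < ε → ∃ C : ℕ, ∀ A N : ℕ, 1 ≤ A → C * A ≤ N →
    ∑ x ∈ Ioc A N, ‖B x‖ / x ≤ ε * Real.log ((N : ℝ) / A)

/-- the averages `(1/x) ∑_{n ≤ x} g(n)` are small at almost all scales -/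
def FullZero (g : ℕ → ℂ) : Prop := Small fun x => (∑ n ∈ Icc 1 x, g n) / (x : ℂ)

/-- the averages of `g` over `(x, x + h(x)]` are small for almost all `x`, at almost all scales -/
def ShortZero (h : ℕ → ℕ) (g : ℕ → ℂ) : Prop := Small fun x => (∑ n ∈ Ioc x (x + h x), g n) / (h x : ℂ)

/-- The lengths: `h` is monotone, `1 ≤ h(x) ≤ x` for `x ≥ 1`, and `h(x) → ∞` (as slowly as one likes). -/
def Lengths (h : ℕ → ℕ) : Prop :=
  Monotone h ∧ (∀ x, 1 ≤ x → 1 ≤ h x) ∧ (∀ x, h x ≤ x) ∧ Tendsto h atTop atTop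

/-- `φ` is smooth for large arguments, and all its derivatives are asymptotic to those of `α x ^ c`, where `α ≠ 0`. -/
def PowerLike (c : ℝ) (φ : ℝ → ℝ) : Prop :=
  ∃ (α : ℝ) (Φ : ℕ → ℝ → ℝ) (x₀ : ℝ), α ≠ 0 ∧ Φ 0 = φ ∧ (∀ (d : ℕ) (x : ℝ), x₀ ≤ x → HasDerivAt (Φ d) (Φ (d + 1) x) x) ∧
    ∀ d : ℕ, Tendsto (fun x => Φ d x / x ^ (c - d)) atTop (𝓝 (α * ∏ i ∈ range d, (c - i)))

/-- The function `f` is bounded by one, and `f(pn) = f(p) f(n)` for all large primes `p` and all `n` which are not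
divisible by `p`. -/
def Mult (f : ℕ → ℂ) : Prop :=
  (∀ n, ‖f n‖ ≤ 1) ∧ ∃ P : ℕ, ∀ p : ℕ, p.Prime → P ≤ p → ∀ n, ¬ p ∣ n → f (p * n) = f p * f n

/-- The correlation sequences `n ↦ f₁(a₁n + b₁) ⋯ f_k(a_k n + b_k)`, for any number `k` of functions as in `Mult`,
`a_j ≥ 1` and integers `b_j` (with `f_j(0)` for the negative arguments). -/
def Corr : Set (ℕ → ℂ) :=
  {g | ∃ (k : ℕ) (f : Fin k → ℕ → ℂ) (a : Fin k → ℕ) (b : Fin k → ℤ), (∀ j, Mult (f j)) ∧ (∀ j, 1 ≤ a j) ∧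
    g = fun n : ℕ => ∏ j, f j (((a j : ℤ) * n + b j).toNat)}

/-- the pattern `(φ(n), φ(n+1), …, φ(n+K-1))` of the phase, modulo one -/
noncomputable def pattern (φ : ℝ → ℝ) (K n : ℕ) : UnitAddTorus (Fin K) :=
  fun i => ((φ ((n : ℝ) + (i : ℕ)) : ℝ) : UnitAddCircle)

open Classical in
/-- the indicator function of the set of the `x` for which `x - a` lies within `r` of an integer -/
noncomputable def arc (a r x : ℝ) : ℝ := if |x - a - round (x - a)| ≤ r then 1 else 0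

/-- the Möbius function at an integer (zero at the integers which are not positive) -/
noncomputable def mu (m : ℤ) : ℂ := ((ArithmeticFunction.moebius m.toNat : ℤ) : ℂ)

/-- Asymptotic independence of `g` and of the patterns of length `K` of the phase, for the averages which belong to
`M`: in the averages of `g` against a continuous function `G` of the pattern, `G` can be replaced by its integral. -/
def Independent (M : (ℕ → ℂ) → Prop) (K : ℕ) (g : ℕ → ℂ) (φ : ℝ → ℝ) : Prop :=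
  ∀ G : C(UnitAddTorus (Fin K), ℂ), M (fun n => g n * (G (pattern φ K n) - ∫ x, G x))

/-- Asymptotic independence of `g` and of the events `φ(n) ∈ [a - r, a + r]` modulo one (of probability `2r`). -/
def IndependentArcs (M : (ℕ → ℂ) → Prop) (g : ℕ → ℂ) (φ : ℝ → ℝ) : Prop :=
  ∀ a r : ℝ, 0 ≤ r → 2 * r ≤ 1 → M (fun n => g n * ((arc a r (φ n) - 2 * r : ℝ) : ℂ))

theorem result :
    -- all the products of the problem are correlation sequences
    (∀ (r : ℕ) (α : Fin r → ℤ) (ε : Fin r → ℕ), (fun n : ℕ => ∏ i, mu (n + α i) ^ (ε i)) ∈ Corr) ∧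
    -- examples of phases: `α₀ x^β₀ + ⋯ + α_m x^β_m`, where `β₀` is the largest exponent
    (∀ (m : ℕ) (α β : Fin (m + 1) → ℝ), α 0 ≠ 0 → (∀ i, i ≠ 0 → β i < β 0) →
      PowerLike (β 0) (fun x => ∑ i, α i * x ^ (β i))) ∧
    -- all exponents `c` between `k ≥ 1` and `k + 1`, outside a countable set which contains no rational number
    ∃ E : Set ℝ, E.Countable ∧ (∀ q : ℚ, (q : ℝ) ∉ E) ∧
      ∀ (k : ℕ) (c : ℝ), 1 ≤ k → (k : ℝ) < c → c < k + 1 → c ∉ E → ∀ φ : ℝ → ℝ, PowerLike c φ →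
        (∀ g ∈ Corr,
          -- full averages: independence of `g` and of the patterns of length `k + 1` of the phase
          Independent FullZero (k + 1) g φ ∧ Independent LogZero (k + 1) g φ ∧ IndependentArcs FullZero g φ ∧
          -- short averages: independence of `g` and of the patterns of length `k` of the phase
          ∀ h : ℕ → ℕ, Lengths h → Independent (ShortZero h) k g φ ∧ IndependentArcs (ShortZero h) g φ) ∧
        -- Chowla's conjecture (logarithmic averages) for two factors along the `n` whose phase lies in an arc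
        (∀ s t : ℤ, s ≠ t → ∀ a r : ℝ, 0 ≤ r → 2 * r ≤ 1 →
          LogZero (fun n => mu (n + s) * mu (n + t) * ((arc a r (φ n) : ℝ) : ℂ))) := by
  -- the correlation sequences
  have hC : ∀ g ∈ Corr, ∃ (k : ℕ) (f : Fin k → ℕ → ℂ) (a : Fin k → ℕ) (b : Fin k → ℤ) (P₀ : ℕ),
      Pool.Agent.Y326.Slw.MF f a P₀ ∧ g = Pool.Agent.Y326.Slw.prd f a b := by
    rintro g ⟨k, f, a, b, hf, ha, rfl⟩
    choose hf1 P hP using hf
    refine ⟨k, f, a, b, ∑ j, P j, ?_, rfl⟩
    have hle : ∀ j, P j ≤ ∑ j, P j := fun j => single_le_sum (fun _ _ => Nat.zero_le _) (mem_univ j)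
    exact ⟨hf1, fun j p n hp hpj hpn => hP j p hp ((hle j).trans hpj) n hpn, ha⟩
  have hmuC : ∀ (r : ℕ) (α : Fin r → ℤ) (ε : Fin r → ℕ), (fun n : ℕ => ∏ i, mu (n + α i) ^ (ε i)) ∈ Corr := by
    intro r α ε
    refine ⟨r, fun j n => ((ArithmeticFunction.moebius n : ℤ) : ℂ) ^ (ε j), fun _ => 1, α, fun j =>
      ⟨(Pool.Agent.Y326.Slw.MF_mu ε).le j, 0, fun p hp h0 n hn => (Pool.Agent.Y326.Slw.MF_mu ε).mul j p n hp h0 hn⟩,
      fun _ => le_rfl, ?_⟩
    funext n
    unfold mu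
    refine prod_congr rfl fun i _ => ?_
    simp
  refine ⟨hmuC, ?_, Pool.Agent.Y326.Slf.EE, Pool.Agent.Y326.Slf.ee_countable, Pool.Agent.Y326.Slf.ee_rat, ?_⟩
  · intro m α β hα hβ
    have h := Pool.Agent.Y326.Slf.as_gpoly α β 0 hβ
    obtain ⟨x₀, hx₀⟩ := h.der
    refine ⟨α 0, fun d x => ∑ i, α i * (Pool.Agent.Y326.Slf.ff (β i) d * x ^ (β i - d)), x₀, hα, ?_, hx₀, h.asy⟩
    funext x
    refine sum_congr rfl fun i _ => ?_
    rw [Pool.Agent.Y326.Slf.ff_zero, one_mul, Nat.cast_zero, sub_zero]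
  · intro k c hk h1 h2 hcE φ hφ
    obtain ⟨α, Φ, x₀, hα, rfl, hder, hasy⟩ := hφ
    have has : Pool.Agent.Y326.Slf.AS Φ c α := ⟨⟨x₀, hder⟩, hasy⟩
    have hind := Pool.Agent.Y326.Slf.ee_ind h1 h2 hcE
    have hFW := Pool.Agent.Y326.Slw.FW_tendsto
    have hFA : Pool.Agent.Y326.Slf.FA Φ c α k := ⟨hk, h1, h2, by simpa using hind 0, hα, has⟩
    have eF : ∀ u : ℕ → ℂ, Pool.Agent.Y326.Slw.Sm (Pool.Agent.Y326.Slw.av Pool.Agent.Y326.Slw.IF u) → FullZero u := by
      intro u hu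
      have : Pool.Agent.Y326.Slw.av Pool.Agent.Y326.Slw.IF u = fun x => (∑ n ∈ Icc 1 x, u n) / (x : ℂ) := by
        funext x
        exact Pool.Agent.Y326.Slw.av_IF u x
      rw [this] at hu
      exact hu
    have eS : ∀ (h : ℕ → ℕ) (u : ℕ → ℂ), Pool.Agent.Y326.Slw.Sm (Pool.Agent.Y326.Slw.av (Pool.Agent.Y326.Slw.IS h) u) →
        ShortZero h u := by
      intro h u hu
      have : Pool.Agent.Y326.Slw.av (Pool.Agent.Y326.Slw.IS h) u = fun x => (∑ n ∈ Ioc x (x + h x), u n) / (h x : ℂ) := by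
        funext x
        rw [Pool.Agent.Y326.Slw.av_IS, Pool.Agent.Y326.Slw.CS_Ioc]
      rw [this] at hu
      exact hu
    have full : ∀ g ∈ Corr, ∀ G : C(UnitAddTorus (Fin (k + 1)), ℂ),
        FullZero (fun n => g n * (G (pattern (Φ 0) (k + 1) n) - ∫ x, G x)) := by
      intro g hg G
      obtain ⟨m, f, a, b, P₀, hf, rfl⟩ := hC g hg
      exact eF _ (Pool.Agent.Y326.Slf.zz_cont hFW hf (fun l hl =>
        Pool.Agent.Y326.Slf.zz_full hFW has h1 h2 hα (fun j _ => hind j) hf l hl) G).sm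
    have arcF : ∀ g ∈ Corr, ∀ a r : ℝ, 0 ≤ r → 2 * r ≤ 1 →
        FullZero (fun n => g n * ((arc a r (Φ 0 n) - 2 * r : ℝ) : ℂ)) := by
      intro g hg a' r hr hr2
      obtain ⟨m, f, a, b, P₀, hf, rfl⟩ := hC g hg
      exact eF _ ((Pool.Agent.Y326.Slf.gf_full hFW hFA).sm_arc hf a' r hr hr2)
    have gle : ∀ g ∈ Corr, ∀ n, ‖g n‖ ≤ 1 := by
      intro g hg n
      obtain ⟨m, f, a, b, P₀, hf, rfl⟩ := hC g hg
      exact Pool.Agent.Y326.Slw.norm_prod_le hf n
    refine ⟨fun g hg => ⟨fun G => full g hg G, fun G => ?_, fun a r hr hr2 => arcF g hg a r hr hr2, fun h hh =>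
      ⟨fun G => ?_, fun a r hr hr2 => ?_⟩⟩, ?_⟩
    · refine Pool.Agent.Y326.Slf.lz_of_full (C := ‖G‖ + ‖∫ x, G x‖) (fun n => ?_) (full g hg G)
      rw [norm_mul]
      calc ‖g n‖ * ‖G (pattern (Φ 0) (k + 1) n) - ∫ x, G x‖ ≤ 1 * (‖G‖ + ‖∫ x, G x‖) := by
            apply mul_le_mul (gle g hg n) _ (norm_nonneg _) zero_le_one
            exact (norm_sub_le _ _).trans (add_le_add (G.norm_coe_le_norm _) le_rfl)
        _ = _ := one_mul _
    · obtain ⟨m, f, a, b, P₀, hf, rfl⟩ := hC g hg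
      exact eS _ _ (Pool.Agent.Y326.Slf.zz_cont hFW hf (fun l hl =>
        Pool.Agent.Y326.Slf.zz_short hFW has h1 h2 hα (fun j _ => hind j) ⟨hh.1, hh.2.1, hh.2.2.1⟩ hh.2.2.2 hf l hl) G).sm
    · obtain ⟨m, f, a', b, P₀, hf, rfl⟩ := hC g hg
      exact eS _ _ ((Pool.Agent.Y326.Slf.gf_short hFW hFA ⟨hh.1, hh.2.1, hh.2.2.1⟩ hh.2.2.2).sm_arc hf a r hr hr2)
    · intro s t hst a r hr hr2
      have hg : (fun n : ℕ => mu (n + s) * mu (n + t)) ∈ Corr := by
        have h3 := hmuC 2 ![s, t] (fun _ => 1)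
        simpa [Fin.prod_univ_two] using h3
      have hg1 := gle _ hg
      have h3 : LogZero (fun n => (mu (n + s) * mu (n + t)) * ((arc a r (Φ 0 n) - 2 * r : ℝ) : ℂ)) := by
        refine Pool.Agent.Y326.Slf.lz_of_full (C := 1) (fun n => ?_) (arcF _ hg a r hr hr2)
        rw [norm_mul]
        refine mul_le_one₀ (hg1 n) (norm_nonneg _) ?_
        rw [Complex.norm_real, Real.norm_eq_abs, abs_le]
        have h4 : 0 ≤ arc a r (Φ 0 n) ∧ arc a r (Φ 0 n) ≤ 1 := by
          unfold arc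
          split_ifs <;> norm_num
        constructor <;> linarith [h4.1, h4.2]
      have h4 : LogZero (fun n => mu (n + s) * mu (n + t)) := Pool.Agent.Y326.Slf.lz_mumu s t hst
      have h5 := h3.add (h4.const_mul ((2 * r : ℝ) : ℂ))
      rw [mul_zero, add_zero] at h5
      refine h5.congr fun N => ?_
      rw [← mul_div_assoc, ← add_div, mul_sum, ← sum_add_distrib]
      congr 1
      refine sum_congr rfl fun n _ => ?_
      push_cast
      ring

end Pool.Agent.Results.MP_c59857_nt.FastPhases
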