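import Pool.Agent.Y885.MU6

/-!
# Autocorrelations of the Möbius function: the shift is a random sum with up to two fifths of the scales missing

Used from the starting files: the bounds for the exponential sum over the Möbius function on the major arcs
(Davenport's theorem with arbitrary powers of the logarithm; `Pool.Agent.H373R2.T7`, `Pool.Agent.W93.LM`).
-/

set_option autoImplicit false

namespace Pool.Agent.Results.MP_c59857_nt.RandomSumShifts

open Finset

/-- The Möbius function on the integers, `0` at the integers `m ≤ 0`, with complex values. -/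
noncomputable def mu (m : ℤ) : ℂ := ((ArithmeticFunction.moebius m.toNat : ℤ) : ℂ)

/-- The set `J` of scales below `k` is rich: it contains more than three fifths of all the scales, more than one half
of the `m` lowest scales, and a positive proportion of the `m` highest scales (the last two conditions are
void for `m ≤ D log k`). -/
structure Rich (δ : ℝ) (D k : ℕ) (J : Finset ℕ) : Prop where
  lt : ∀ j ∈ J, j < k
  all : (3 / 5 + δ) * k ≤ (J.card : ℝ)
  low : ∀ m ≤ k, (1 / 2 + δ) * m ≤ ((J.filter fun j => j < m).card : ℝ) + D * Real.log k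
  high : ∀ m ≤ k, δ * m ≤ ((J.filter fun j => k - m ≤ j).card : ℝ) + D * Real.log k

open Classical in
/-- The probability of the event `E` if `x 0, ..., x (k - 1)` are independent random integers, where `x j` takes
its values in the finite set `s j`, and the value `v` with the probability `p j v`. -/
noncomputable def Prob (k : ℕ) (s : ℕ → Finset ℤ) (p : ℕ → ℤ → ℝ) (E : (Fin k → ℤ) → Prop) : ℝ :=
  ∑ x ∈ Fintype.piFinset (fun j : Fin k => s j), if E x then ∏ j : Fin k, p j (x j) else 0

/-- Let `b ≥ 2`, `B ≥ 1`, `D`, `κ`, `U`, `η > 0` and `δ > 0` be fixed, let `k` be large, and let `J` be an arbitrary rich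
set of scales below `k`. Let `x 0, ..., x (k - 1)` be arbitrary independent random integers with `|x j| ≤ B b ^ j`
such that, for all `j` in `J`, no interval of the length `b ^ j / B` contains `x j` with a probability larger than
`1 - η` (nothing is assumed for the other `j`: these `x j` may be constants). Let `c` be an arbitrary integer with
`|c| ≤ B b ^ k`, and let `g l : ℕ → ℂ`, where `l` ranges over at most `k ^ κ` indices, be arbitrary functions bounded
by `1` (for example products `∏ i, μ (n + α i) ^ ε i` with arbitrary shifts `α i` and exponents `ε i ∈ {1, 2}`). Then,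
with a probability of at least `1 - 1 / k ^ U`, the shift `α = c + x 0 + ... + x (k - 1)` satisfies
`|∑ n ≤ N, g l n * μ (n + α)| ≤ b ^ k / k ^ U` for all `l` and all `N ≤ B b ^ k`. -/
theorem result (b B D κ U : ℕ) (hb : 2 ≤ b) (hB : 1 ≤ B) (η δ : ℝ) (hη : 0 < η) (hδ : 0 < δ) :
    ∃ k₀ : ℕ, ∀ k : ℕ, k₀ ≤ k → ∀ J : Finset ℕ, Rich δ D k J →
      ∀ (s : ℕ → Finset ℤ) (p : ℕ → ℤ → ℝ),
      (∀ j < k, (∀ x ∈ s j, 0 ≤ p j x ∧ |x| ≤ (B : ℤ) * (b : ℤ) ^ j) ∧ ∑ x ∈ s j, p j x = 1) →
      (∀ j ∈ J, ∀ y : ℤ, ∑ x ∈ (s j).filter (fun x => y ≤ x ∧ (B : ℤ) * (x - y) ≤ (b : ℤ) ^ j), p j x ≤ 1 - η) →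
      ∀ c : ℤ, |c| ≤ (B : ℤ) * (b : ℤ) ^ k →
      ∀ L : ℕ, L ≤ k ^ κ → ∀ g : Fin L → ℕ → ℂ, (∀ l n, ‖g l n‖ ≤ 1) →
        Prob k s p (fun x => ¬ ∀ l, ∀ N : ℕ, N ≤ B * b ^ k →
          ‖∑ n ∈ Icc 1 N, g l n * mu (n + (c + ∑ j, x j))‖ ≤ (b : ℝ) ^ k / (k : ℝ) ^ U) ≤ 1 / (k : ℝ) ^ U := by
  classical
  obtain ⟨k₀, h0⟩ := Pool.Agent.Y885.rs_fine b B D κ U hb hB η δ hη hδ Pool.Agent.H373R2.T7.muR Pool.Agent.Y885.fine_mu
  refine ⟨k₀ + 1, fun k hk J hJ s p hs hp c hc L hL g hg => ?_⟩
  have hk1 : (1 : ℝ) ≤ (k : ℝ) ^ κ := one_le_pow₀ (by exact_mod_cast (by omega : 1 ≤ k))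
  have h1 := h0 k (by omega) J s p c ⟨hJ.lt, hJ.low, hJ.high, hJ.all⟩ hs hp hc L hL (fun _ => 1) g (fun _ => le_rfl)
    (fun l n _ _ => (hg l n).trans hk1)
    (fun x => ¬ ∀ l, ∀ N : ℕ, N ≤ B * b ^ k →
          ‖∑ n ∈ Icc 1 N, g l n * mu (n + (c + ∑ j, x j))‖ ≤ (b : ℝ) ^ k / (k : ℝ) ^ U) (Classical.decPred _)
    (fun x hx h => hx fun l N hN => by
      have h2 := h l N (by rw [one_mul]; exact hN)
      refine le_trans (le_of_eq ?_) h2
      congr 1
      apply sum_congr rfl
      intro n _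
      congr 1
      rw [one_mul]
      unfold Pool.Agent.H373R2.T7.exI mu
      split_ifs with h3
      · simp only
        rw [← Pool.Agent.H373R2.T7.muC_eq]
        rfl
      · rw [Int.toNat_of_nonpos (by omega)]
        simp)
  refine le_trans (le_of_eq ?_) h1
  unfold Prob
  apply sum_congr rfl
  intro x _
  split_ifs <;> rfl

end Pool.Agent.Results.MP_c59857_nt.RandomSumShifts
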