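import Pool.Agent.Y958.U.Mob

set_option autoImplicit false

namespace Pool.Agent.Results.MP_c59857_nt.UniformBoundEveryOrder

open Finset Filter Topology

open Classical in
/-- The correlations of the Moebius function in the problem are at most `(1 - c s)` times the trivial
bound (the number of `n ≤ N` for which all the `n + α i` are squarefree), where `c s > 0` depends
only on the number `s` of exponents equal to one: for all large `N` outside one set `𝓔` of
logarithmic density zero (the same for all shifts and exponents), and for the logarithmic averages up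
to every large `N`. -/
theorem result : ∃ (c : ℕ → ℝ) (𝓔 : Set ℕ), (∀ s, 0 < c s) ∧
    Tendsto (fun X : ℕ => (∑ N ∈ Icc 1 X, if N ∈ 𝓔 then (1 : ℝ) / N else 0) / Real.log X)
      atTop (𝓝 0) ∧
    ∀ (r : ℕ) (α : Fin r → ℤ) (ε : Fin r → ℕ), Function.Injective α → (∀ i, ε i = 1 ∨ ε i = 2) →
      (∃ i, ε i = 1) →
      (∃ N₀ : ℕ, ∀ N : ℕ, N₀ ≤ N → N ∉ 𝓔 →
        |∑ n ∈ Icc 1 N, ∏ i, ((ArithmeticFunction.moebius ((n : ℤ) + α i).toNat : ℤ) : ℝ) ^ ε i| ≤
          (1 - c (univ.filter (fun i => ε i = 1)).card) *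
            ∑ n ∈ Icc 1 N, ∏ i, ((ArithmeticFunction.moebius ((n : ℤ) + α i).toNat : ℤ) : ℝ) ^ 2) ∧
      ∃ N₀ : ℕ, ∀ N : ℕ, N₀ ≤ N →
        |∑ n ∈ Icc 1 N, (∏ i, ((ArithmeticFunction.moebius ((n : ℤ) + α i).toNat : ℤ) : ℝ) ^ ε i) / n| ≤
          (1 - c (univ.filter (fun i => ε i = 1)).card) *
            ∑ n ∈ Icc 1 N, (∏ i, ((ArithmeticFunction.moebius ((n : ℤ) + α i).toNat : ℤ) : ℝ) ^ 2) / n := by
  obtain ⟨c, E, h1, h2, h3⟩ := Pool.Agent.Y958.U.mob_final
  refine ⟨c, E, h1, h2, fun r α ε hα hε hex => ?_⟩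
  have h := h3 r α ε hα hε hex
  unfold Pool.Agent.Y958.U.GG at h
  convert h using 10

end Pool.Agent.Results.MP_c59857_nt.UniformBoundEveryOrder
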